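import Pool.Agent.H55.BQ.Targets

/-! Row MSH of the board `bpq_modules` (problem MP_bacf0e_co): there is a good mesh. -/

set_option autoImplicit false

namespace Pool.Agent.H7.BPQ

open Finset Pool.Agent.H55.BP Pool.Agent.H55.BQ

section

variable {n : ℕ} {ι : Type} (Y : Sys n ι) {N : ℕ}

theorem msh_z (hSCL : T_SCL) (hN : 0 < N) (e : ι) (k : ℕ) (hk : N ≤ k) :
    Y.z N e (k + N) - ((Y.wt e).val : ℂ) = (Y.z N e k - ((Y.wt e).val : ℂ)) / 2 := by
  have h := hSCL Y N hN e k 1 hk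
  rwa [one_mul, pow_one] at h

theorem msh_sg (hSCL : T_SCL) (hN : 0 < N) (e : ι) (k : ℕ) (hk : N ≤ k) :
    sg (Y.z N e (k + N)) = sg (Y.z N e k) := by
  have h := congrArg Complex.im (msh_z Y hSCL hN e k hk)
  have h2 : ∀ w : ℂ, (w / 2).im = w.im / 2 := by
    intro w
    rw [show (2 : ℂ) = ((2 : ℝ) : ℂ) by norm_num, Complex.div_ofReal_im]
  rw [h2] at h
  simp only [Complex.sub_im, Complex.natCast_im, sub_zero] at h
  unfold sg
  rw [h]
  by_cases h3 : 0 ≤ (Y.z N e k).im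
  · have : 0 ≤ (Y.z N e k).im / 2 := by linarith
    simp [h3, this]
  · have : ¬ 0 ≤ (Y.z N e k).im / 2 := by
      push Not at h3 ⊢
      linarith
    simp [h3, this]

theorem norm_half (w : ℂ) : ‖w / 2‖ = ‖w‖ / 2 := by
  rw [norm_div]
  norm_num

theorem msh_st (hSCL : T_SCL) (hN : 0 < N) (e : ι) (k : ℕ) (hk : N + 1 ≤ k) :
    Y.st N e (k + N) = Y.st N e k / 2 := by
  unfold Sys.st
  have h1 := msh_z Y hSCL hN e k (by omega)
  have h2 := msh_z Y hSCL hN e (k + 1) (by omega)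
  have h3 := msh_z Y hSCL hN e (k - 1) (by omega)
  rw [show k + 1 + N = k + N + 1 by omega] at h2
  rw [show k - 1 + N = k + N - 1 by omega] at h3
  have h4 : Y.z N e (k + N + 1) - Y.z N e (k + N) = (Y.z N e (k + 1) - Y.z N e k) / 2 := by
    linear_combination h2 - h1
  have h5 : Y.z N e (k + N) - Y.z N e (k + N - 1) = (Y.z N e k - Y.z N e (k - 1)) / 2 := by
    linear_combination h1 - h3
  rw [h4, h5, norm_half, norm_half]
  ring

end

theorem msh_step (hFT : T_FT) (hSCL : T_SCL) (hPRC : T_PRC) {n : ℕ} [NeZero n] (T : LT n)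
    {ι : Type} (Y : Sys n ι) (N : ℕ) (hn : 2 ≤ n) (hF : Y.Fine N) (e f : ι) (h : Dk T)
    (k l : ℕ) (hk : N + 1 ≤ k) (hl : N + 1 ≤ l) (hw : Y.wt e = Y.wt f)
    (hc : Y.CloseAt T N e f h k l) : Y.CloseAt T N e f h (k + N) (l + N) := by
  have hN : 0 < N := lt_of_lt_of_le (by norm_num) hF.big
  intro h1 h2
  have pc : ∀ e' k, T.par (Y.c T N e' k) = sg (Y.z N e' k) := by
    intro e' k
    refine hPRC T _ _ ?_ k
    have h0 : Y.z N e' 0 = Y.γ e' 0 := by unfold Sys.z; simp
    rw [h0]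
    unfold cell0
    cases h2 : sg (Y.γ e' 0) with
    | true => simp [T.par_o]
    | false => simp [T.par_r, T.par_o]
  apply hc
  · have h3 := congrArg T.par h1
    rw [pc, h.hp, pc, msh_sg Y hSCL hN e k (by omega), msh_sg Y hSCL hN f l (by omega)] at h3
    rw [hFT T Y N hn hF e k (by omega), hFT T Y N hn hF f l (by omega), h3, hw] at h1
    cases h4 : sg (Y.z N f l) with
    | true =>
      rw [h4] at h1
      simp only [if_true, h.hr] at h1
      have h5 := congrArg (T.r (Y.wt f)) h1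
      rw [T.rr, T.rr] at h5
      have h6 := congrArg (T.r (lf n (Y.wt f))) h5
      rwa [T.rr, T.rr] at h6
    | false =>
      rw [h4] at h1
      simp only [Bool.false_eq_true, if_false, h.hr] at h1
      have h5 := congrArg (T.r (lf n (Y.wt f))) h1
      rw [T.rr, T.rr] at h5
      have h6 := congrArg (T.r (Y.wt f)) h5
      rwa [T.rr, T.rr] at h6
  · have h3 := msh_z Y hSCL hN e k (by omega)
    have h4 := msh_z Y hSCL hN f l (by omega)
    have h5 : Y.z N e (k + N) - Y.z N f (l + N) = (Y.z N e k - Y.z N f l) / 2 := by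
      rw [hw] at h3
      linear_combination h3 - h4
    rw [h5, norm_half, msh_st Y hSCL hN e k hk, msh_st Y hSCL hN f l hl] at h2
    linarith

theorem pf_MSH (hFNE : T_FNE) (hRGA : T_RGA) (hRGB : T_RGB) (hRGC : T_RGC) (hFT : T_FT)
    (hSCL : T_SCL) (hPRC : T_PRC) : T_MSH := by
  intro n _ T ι _ Y hn
  obtain ⟨N₁, h1⟩ := hFNE Y
  obtain ⟨N₂, h2⟩ := hRGA T Y
  refine ⟨max N₁ N₂, h1 _ (le_max_left _ _), ?_⟩
  have hF := h1 (max N₁ N₂) (le_max_left _ _)
  have hA := h2 (max N₁ N₂) (le_max_right _ _)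
  obtain ⟨N, hNe⟩ : ∃ N, N = max N₁ N₂ := ⟨_, rfl⟩
  rw [← hNe] at hF hA ⊢
  have hN : 0 < N := lt_of_lt_of_le (by norm_num) hF.big
  have hP : ∀ (e f : ι) (h : Dk T), Y.wt e = Y.wt f → ∀ m k l, N + 1 ≤ k → N + 1 ≤ l →
      k ≤ 3 * N → l ≤ 3 * N → Y.CloseAt T N e f h (k + m * N) (l + m * N) := by
    intro e f h hw m
    induction m with
    | zero =>
      intro k l _ _ h5 h6
      rw [Nat.zero_mul]
      exact hA e f h k l h5 h6
    | succ m ih =>
      intro k l h3 h4 h5 h6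
      have h7 := msh_step hFT hSCL hPRC T Y N hn hF e f h (k + m * N) (l + m * N) (by omega)
        (by omega) hw (ih k l h3 h4 h5 h6)
      rw [show k + (m + 1) * N = k + m * N + N by ring,
        show l + (m + 1) * N = l + m * N + N by ring]
      exact h7
  intro e f h k l
  by_cases c1 : k ≤ 3 * N ∧ l ≤ 3 * N
  · exact hA e f h k l c1.1 c1.2
  by_cases c2 : k ≤ 2 * N
  · have h3 := hRGB Y N hF e f k l c2 (by omega)
    intro _ h4
    exact absurd h3 (not_lt.2 h4)
  by_cases c3 : l ≤ 2 * N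
  · have h3 := hRGB Y N hF f e l k c3 (by omega)
    intro _ h4
    rw [norm_sub_rev, add_comm] at h3
    exact absurd h3 (not_lt.2 h4)
  by_cases c4 : Y.wt e ≠ Y.wt f ∨ k + N ≤ l ∨ l + N ≤ k
  · have h3 := hRGC Y N hF e f k l (by omega) (by omega) c4
    intro _ h4
    exact absurd h3 (not_lt.2 h4)
  push Not at c4
  obtain ⟨hw, c5, c6⟩ := c4
  obtain ⟨m, r, hm, hr⟩ : ∃ m r, min k l = N + 1 + r + m * N ∧ r < N := by
    refine ⟨(min k l - (N + 1)) / N, (min k l - (N + 1)) % N, ?_, Nat.mod_lt _ hN⟩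
    have h3 := Nat.mod_add_div (min k l - (N + 1)) N
    have h4 : (min k l - (N + 1)) / N * N = N * ((min k l - (N + 1)) / N) := Nat.mul_comm _ _
    have h5 : N + 1 ≤ min k l := by omega
    omega
  have h3 := hP e f h hw m (k - m * N) (l - m * N) (by omega) (by omega) (by omega) (by omega)
  rw [show k - m * N + m * N = k by omega, show l - m * N + m * N = l by omega] at h3
  exact h3

end Pool.Agent.H7.BPQ
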