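import Pool.Agent.H7.BPQ.ORD

/-! Row NIL of the board `bpq_modules` (problem MP_bacf0e_co): separated legs do not interleave. -/

set_option autoImplicit false

namespace Pool.Agent.H7.BPQ

open Finset Pool.Agent.H55.BP Pool.Agent.H55.BQ Relation

theorem rtg_fn {α : Type} {R : α → α → Prop} {x y : α} (h : ReflTransGen R x y) :
    ∃ (K : ℕ) (w : ℕ → α), w 0 = x ∧ w K = y ∧ ∀ k < K, R (w k) (w (k + 1)) := by
  induction h with
  | refl => exact ⟨0, fun _ => x, rfl, rfl, fun k hk => absurd hk (Nat.not_lt_zero k)⟩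
  | @tail b c _ h2 ih =>
    obtain ⟨K, w, h0, hK, hw⟩ := ih
    refine ⟨K + 1, fun k => if k ≤ K then w k else c, ?_, ?_, ?_⟩
    · simp [h0]
    · simp
    · intro k hk
      rcases Nat.lt_succ_iff_lt_or_eq.1 hk with h3 | rfl
      · have h4 : k + 1 ≤ K := h3
        simp only [h3.le, h4, if_true]
        exact hw k h3
      · simp only [le_refl, if_true, show ¬ (k + 1 ≤ k) by omega, if_false, hK]
        exact h2

section

variable {n : ℕ} [NeZero n] {T : LT n} {ι : Type} (Y : Sys n ι) (N : ℕ)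

/-- the point `p` is in the cell `C` near the star with the legs `e`, with a step `r` -/
def Pn (T : LT n) (e : Fin 3 → ι) (C : T.V) (p : ℂ) (r : ℝ) : Prop :=
  (if T.par C then 0 ≤ p.im else p.im ≤ 0) ∧ ∃ a i, Y.c T N (e a) i = C ∧
    ‖p - Y.z N (e a) i‖ ≤ Y.st N (e a) i ∧ r ≤ Y.st N (e a) i

/-- the steps -/
def Rn (T : LT n) (e : Fin 3 → ι) (C : T.V) (p q : ℂ) : Prop := Pn Y N T e C p ‖q - p‖

omit [NeZero n] in
theorem st_nonneg (e : ι) (k : ℕ) : 0 ≤ Y.st N e k := by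
  unfold Sys.st
  positivity

theorem pn_sep {e f : Fin 3 → ι} {h : Dk T} (hs : ∀ a b, Y.sep T N (e a) (f b) h.h)
    {C C' : T.V} (hC : C = h.h C') {p q : ℂ} {r s : ℝ} (hp : Pn Y N T e C p r)
    (hq : Pn Y N T f C' q s) : 2 * r < ‖p - q‖ ∧ 2 * s < ‖p - q‖ := by
  obtain ⟨-, a, i, h1, h2, h3⟩ := hp
  obtain ⟨-, b, j, h4, h5, h6⟩ := hq
  have h7 := hs a b i j (by rw [h1, h4, hC])
  have h8 : ‖Y.z N (e a) i - Y.z N (f b) j‖ ≤
      ‖p - Y.z N (e a) i‖ + ‖p - q‖ + ‖q - Y.z N (f b) j‖ := by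
    have : Y.z N (e a) i - Y.z N (f b) j =
      -(p - Y.z N (e a) i) + (p - q) + (q - Y.z N (f b) j) := by ring
    rw [this]
    refine (norm_add_le _ _).trans ?_
    have := norm_add_le (-(p - Y.z N (e a) i)) (p - q)
    rw [norm_neg] at this
    linarith
  have h9 := st_nonneg Y N (e a) i
  have h10 := st_nonneg Y N (f b) j
  constructor <;> linarith

theorem nil_core (hHC : T_HC) (hILV : T_ILV) {e f : Fin 3 → ι} {h : Dk T}
    (hs : ∀ a b, Y.sep T N (e a) (f b) h.h) {C C' : T.V} (hC : C = h.h C') {x y x' y' : ℝ}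
    (hx : x ≠ 0) (hy : y ≠ 0) (hx' : x' ≠ 0) (hy' : y' ≠ 0)
    (h1 : ReflTransGen (Rn Y N T e C) x y) (h2 : Pn Y N T e C y 0)
    (h3 : ReflTransGen (Rn Y N T f C') x' y') (h4 : Pn Y N T f C' y' 0) :
    ilv (th x) (th y) (th x') (th y') = false := by
  rw [hILV x y x' y' hx hy hx' hy']
  obtain ⟨K, w, w0, wK, hw⟩ := rtg_fn h1
  obtain ⟨K', w', w0', wK', hw'⟩ := rtg_fn h3
  have hpar : T.par C = T.par C' := by rw [hC, h.hp]
  have e1 : ∀ k ≤ K, ∃ r, Pn Y N T e C (w k) r ∧ (k < K → ‖w (k + 1) - w k‖ ≤ r) := by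
    intro k hk
    rcases hk.lt_or_eq with h5 | rfl
    · exact ⟨_, hw k h5, fun _ => le_rfl⟩
    · rw [wK]
      exact ⟨0, h2, fun h5 => absurd h5 (lt_irrefl _)⟩
  have e2 : ∀ k ≤ K', ∃ r, Pn Y N T f C' (w' k) r ∧ (k < K' → ‖w' (k + 1) - w' k‖ ≤ r) := by
    intro k hk
    rcases hk.lt_or_eq with h5 | rfl
    · exact ⟨_, hw' k h5, fun _ => le_rfl⟩
    · rw [wK']
      exact ⟨0, h4, fun h5 => absurd h5 (lt_irrefl _)⟩
  refine hHC K K' w w' (T.par C) x y x' y' w0 wK w0' wK' ?_ ?_ ?_ ?_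
  · intro k hk
    obtain ⟨r, h5, -⟩ := e1 k hk
    exact h5.1
  · intro k hk
    obtain ⟨r, h5, -⟩ := e2 k hk
    rw [hpar]
    exact h5.1
  · intro k hk l hl
    obtain ⟨r, h5, h6⟩ := e1 k hk.le
    obtain ⟨s, h7, -⟩ := e2 l hl
    have h8 := (pn_sep Y N hs hC h5 h7).1
    have h9 := h6 hk
    linarith
  · intro k hk l hl
    obtain ⟨r, h5, -⟩ := e1 k hk
    obtain ⟨s, h7, h6⟩ := e2 l hl.le
    have h8 := (pn_sep Y N hs hC h5 h7).2
    have h9 := h6 hl
    linarith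

variable {Y N}

/-- the data of the walks of one star -/
structure Dat (hF : Y.Fine N) (e : Fin 3 → ι) (κ : Fin 3 → ℕ) (L : Fin 3 → Walk T)
    (j : Fin 3 → ℕ → ℕ) : Prop where
  pc : ∀ a k, T.par (Y.c T N (e a) k) = sg (Y.z N (e a) k)
  bb : ∀ a b, Y.b (e a) = Y.b (e b)
  ex : ∀ a, Ext (cell0 T (Y.γ (e a) 0)) (Y.z N (e a)) (κ a) (L a) (j a)

variable {hF : Y.Fine N} {e : Fin 3 → ι} {κ : Fin 3 → ℕ} {L : Fin 3 → Walk T}
  {j : Fin 3 → ℕ → ℕ}

/-- the real point of the crossing `k` -/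
noncomputable def xx (Y : Sys n ι) (N : ℕ) (e : Fin 3 → ι) (j : Fin 3 → ℕ → ℕ) (a : Fin 3)
    (k : ℕ) : ℝ :=
  xr (Y.z N (e a) (j a k)) (Y.z N (e a) (j a k + 1))

theorem xx_ne (D : Dat hF e κ L j) {a : Fin 3} {k : ℕ} (hk : k ≤ (L a).K) :
    xx Y N e j a k ≠ 0 := by
  have h := xr_ne Y hF (e a) _ ((D.ex a).flip k hk) 0
  unfold xx
  simpa using h

theorem sgn_z (D : Dat hF e κ L j) {a : Fin 3} {i : ℕ} {C : T.V} (hc : Y.c T N (e a) i = C) :
    if T.par C then 0 ≤ (Y.z N (e a) i).im else (Y.z N (e a) i).im ≤ 0 := by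
  rw [← hc, D.pc]
  unfold sg
  by_cases h : 0 ≤ (Y.z N (e a) i).im
  · simp [h]
  · simp [h, (not_le.1 h).le]

omit [NeZero n] in
theorem sgn_r {C : T.V} (x : ℝ) : if T.par C then 0 ≤ (x : ℂ).im else (x : ℂ).im ≤ 0 := by
  simp

omit [NeZero n] in
theorem st_up (e : ι) (k : ℕ) : ‖Y.z N e (k + 1) - Y.z N e k‖ ≤ Y.st N e k := by
  unfold Sys.st
  linarith [norm_nonneg (Y.z N e k - Y.z N e (k - 1))]

omit [NeZero n] in
theorem st_dn (e : ι) (k : ℕ) : ‖Y.z N e (k + 1) - Y.z N e k‖ ≤ Y.st N e (k + 1) := by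
  unfold Sys.st
  rw [Nat.add_sub_cancel]
  linarith [norm_nonneg (Y.z N e (k + 1 + 1) - Y.z N e (k + 1))]

/-- up along a leg -/
theorem rt_up (D : Dat hF e κ L j) {a : Fin 3} {C : T.V} (i d : ℕ)
    (hc : ∀ k, i ≤ k → k ≤ i + d → Y.c T N (e a) k = C) :
    ReflTransGen (Rn Y N T e C) (Y.z N (e a) i) (Y.z N (e a) (i + d)) := by
  induction d with
  | zero => exact ReflTransGen.refl
  | succ d ih =>
    refine (ih fun k h1 h2 => hc k h1 (by omega)).tail ?_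
    have h1 := hc (i + d) (by omega) (by omega)
    refine ⟨sgn_z D h1, a, i + d, h1, ?_, ?_⟩
    · rw [sub_self, norm_zero]
      exact st_nonneg _ _ _ _
    · exact st_up _ _

/-- down along a leg -/
theorem rt_dn (D : Dat hF e κ L j) {a : Fin 3} {C : T.V} (i d : ℕ)
    (hc : ∀ k, i ≤ k → k ≤ i + d → Y.c T N (e a) k = C) :
    ReflTransGen (Rn Y N T e C) (Y.z N (e a) (i + d)) (Y.z N (e a) i) := by
  induction d with
  | zero => exact ReflTransGen.refl
  | succ d ih =>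
    refine ReflTransGen.head ?_ (ih fun k h1 h2 => hc k h1 (by omega))
    have h1 := hc (i + (d + 1)) (by omega) (by omega)
    refine ⟨sgn_z D h1, a, i + (d + 1), h1, ?_, ?_⟩
    · rw [sub_self, norm_zero]
      exact st_nonneg _ _ _ _
    · rw [norm_sub_rev]
      exact st_dn _ _

theorem xr_seg' {z w : ℂ} (h : sg z ≠ sg w) : ‖((xr z w : ℝ) : ℂ) - w‖ ≤ ‖w - z‖ := by
  have hne : z.im - w.im ≠ 0 := by
    intro h0
    apply h
    unfold sg
    rw [show z.im = w.im by linarith]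
  have h1 : xr z w = xr w z := by
    unfold xr
    have h2 : w.im - z.im ≠ 0 := fun h3 => hne (by linarith)
    field_simp
    ring
  rw [h1, norm_sub_rev w z]
  exact xr_seg (Ne.symm h)

theorem piece (D : Dat hF e κ L j) {a : Fin 3} {k : ℕ} (hk : k < (L a).K) :
    ReflTransGen (Rn Y N T e ((L a).C (k + 1))) (xx Y N e j a k) (xx Y N e j a (k + 1)) ∧
    Pn Y N T e ((L a).C (k + 1)) (xx Y N e j a (k + 1)) 0 := by
  have hm := (D.ex a).mono k hk
  have hCc : ∀ i, j a k < i → i ≤ j a (k + 1) → Y.c T N (e a) i = (L a).C (k + 1) := by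
    intro i h1 h2
    rw [(D.ex a).hC (k + 1) hk]
    exact ((D.ex a).run k hk i h1 h2).1
  obtain ⟨d, hd⟩ := Nat.exists_eq_add_of_le (show j a k + 1 ≤ j a (k + 1) from hm)
  have f1 := (D.ex a).flip k hk.le
  have f2 := (D.ex a).flip (k + 1) hk
  refine ⟨?_, sgn_r _, a, j a (k + 1), hCc _ hm le_rfl, ?_, st_nonneg _ _ _ _⟩
  · refine ReflTransGen.head (b := Y.z N (e a) (j a k + 1)) ?_
      (ReflTransGen.tail (b := Y.z N (e a) (j a (k + 1))) ?_ ?_)
    · have h1 := hCc (j a k + 1) (Nat.lt_succ_self _) hm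
      refine ⟨sgn_r _, a, j a k + 1, h1, ?_, ?_⟩
      · exact (xr_seg' f1).trans (st_dn _ _)
      · rw [norm_sub_rev]
        exact (xr_seg' f1).trans (st_dn _ _)
    · have := rt_up D (a := a) (C := (L a).C (k + 1)) (j a k + 1) d fun i h1 h2 =>
        hCc i (by omega) (by omega)
      rw [← hd] at this
      exact this
    · have h1 := hCc (j a (k + 1)) hm le_rfl
      refine ⟨sgn_z D h1, a, j a (k + 1), h1, ?_, ?_⟩
      · rw [sub_self, norm_zero]
        exact st_nonneg _ _ _ _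
      · exact (xr_seg f2).trans (st_up _ _)
  · exact (xr_seg f2).trans (st_up _ _)

theorem central (D : Dat hF e κ L j) (a a' : Fin 3) :
    ReflTransGen (Rn Y N T e ((L a).C 0)) (xx Y N e j a 0) (xx Y N e j a' 0) ∧
    Pn Y N T e ((L a).C 0) (xx Y N e j a' 0) 0 ∧ (L a').C 0 = (L a).C 0 := by
  have g0 : Y.γ (e a') 0 = Y.γ (e a) 0 := Y.star _ _ (D.bb a' a)
  have z0 : ∀ b, Y.z N (e b) 0 = Y.γ (e b) 0 := by
    intro b
    unfold Sys.z
    simp
  have hC0 : ∀ b, (L b).C 0 = cell0 T (Y.γ (e b) 0) := by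
    intro b
    rw [(D.ex b).hC 0 (Nat.zero_le _)]
    exact ((D.ex b).run0 _ le_rfl).1
  have hCc : ∀ b, Y.γ (e b) 0 = Y.γ (e a) 0 → ∀ i ≤ j b 0, Y.c T N (e b) i = (L a).C 0 := by
    intro b hb i hi
    rw [hC0, ← hb]
    exact ((D.ex b).run0 i hi).1
  have f1 := (D.ex a).flip 0 (Nat.zero_le _)
  have f2 := (D.ex a').flip 0 (Nat.zero_le _)
  refine ⟨?_, ⟨sgn_r _, a', j a' 0, hCc a' g0 _ le_rfl, ?_, st_nonneg _ _ _ _⟩, ?_⟩
  · refine ReflTransGen.head (b := Y.z N (e a) (j a 0)) ?_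
      (ReflTransGen.trans (b := Y.z N (e a) 0) ?_
      (ReflTransGen.tail (b := Y.z N (e a') (j a' 0)) ?_ ?_))
    · have h1 := hCc a rfl (j a 0) le_rfl
      refine ⟨sgn_r _, a, j a 0, h1, ?_, ?_⟩
      · exact (xr_seg f1).trans (st_up _ _)
      · rw [norm_sub_rev]
        exact (xr_seg f1).trans (st_up _ _)
    · have := rt_dn D (a := a) (C := (L a).C 0) 0 (j a 0) fun i h1 h2 =>
        hCc a rfl i (by omega)
      rw [Nat.zero_add] at this
      exact this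
    · have := rt_up D (a := a') (C := (L a).C 0) 0 (j a' 0) fun i h1 h2 =>
        hCc a' g0 i (by omega)
      rw [Nat.zero_add, z0, g0, ← z0] at this
      exact this
    · have h1 := hCc a' g0 (j a' 0) le_rfl
      refine ⟨sgn_z D h1, a', j a' 0, h1, ?_, ?_⟩
      · rw [sub_self, norm_zero]
        exact st_nonneg _ _ _ _
      · exact (xr_seg f2).trans (st_up _ _)
  · exact (xr_seg f2).trans (st_up _ _)
  · rw [hC0, hC0, g0]

end

theorem pf_NIL (hHC : T_HC) (hILV : T_ILV) (hPRC : T_PRC) : T_NIL := by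
  intro n _ T ι Y N hF e f h hbe hbf hs κ κ' L M j j' hL hM
  have pc : ∀ e' k, T.par (Y.c T N e' k) = sg (Y.z N e' k) := by
    intro e' k
    refine hPRC T _ _ ?_ k
    have h0 : Y.z N e' 0 = Y.γ e' 0 := by unfold Sys.z; simp
    rw [h0]
    unfold cell0
    cases h2 : sg (Y.γ e' 0) with
    | true => simp [T.par_o]
    | false => simp [T.par_r, T.par_o]
  have D : Dat hF e κ L j := ⟨fun a => pc (e a), hbe, hL⟩
  have D' : Dat hF f κ' M j' := ⟨fun a => pc (f a), hbf, hM⟩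
  have X : ∀ a k, k ≤ (L a).K → (L a).x k = th (xx Y N e j a k) := fun a k hk => (hL a).hx k hk
  have X' : ∀ b l, l ≤ (M b).K → (M b).x l = th (xx Y N f j' b l) := fun b l hl => (hM b).hx l hl
  constructor
  · intro a b k l hk hl hc
    have hl' : l < (M b).K := hl
    change ilv ((L a).x k) ((L a).x (k + 1)) ((M b).x l) ((M b).x (l + 1)) = false
    rw [X a k hk.le, X a (k + 1) hk, X' b l hl'.le, X' b (l + 1) hl']
    obtain ⟨p1, p2⟩ := piece D hk
    obtain ⟨q1, q2⟩ := piece D' hl'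
    exact nil_core Y N hHC hILV hs hc (xx_ne D hk.le) (xx_ne D hk) (xx_ne D' hl'.le)
      (xx_ne D' hl') p1 p2 q1 q2
  · intro a b b' k hk hc
    change ilv ((L a).x k) ((L a).x (k + 1)) ((M b).x 0) ((M b').x 0) = false
    rw [X a k hk.le, X a (k + 1) hk, X' b 0 (Nat.zero_le _), X' b' 0 (Nat.zero_le _)]
    obtain ⟨p1, p2⟩ := piece D hk
    obtain ⟨q1, q2, -⟩ := central D' b b'
    exact nil_core Y N hHC hILV hs hc (xx_ne D hk.le) (xx_ne D hk) (xx_ne D' (Nat.zero_le _))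
      (xx_ne D' (Nat.zero_le _)) p1 p2 q1 q2
  · intro a a' b l hl hc
    have hl' : l < (M b).K := hl
    change ilv ((L a).x 0) ((L a').x 0) ((M b).x l) ((M b).x (l + 1)) = false
    rw [X a 0 (Nat.zero_le _), X a' 0 (Nat.zero_le _), X' b l hl'.le, X' b (l + 1) hl']
    obtain ⟨p1, p2, -⟩ := central D a a'
    obtain ⟨q1, q2⟩ := piece D' hl'
    exact nil_core Y N hHC hILV hs hc.symm (xx_ne D (Nat.zero_le _)) (xx_ne D (Nat.zero_le _))
      (xx_ne D' hl'.le) (xx_ne D' hl') p1 p2 q1 q2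
  · intro a a' b b' hc
    change ilv ((L a).x 0) ((L a').x 0) ((M b).x 0) ((M b').x 0) = false
    rw [X a 0 (Nat.zero_le _), X a' 0 (Nat.zero_le _), X' b 0 (Nat.zero_le _),
      X' b' 0 (Nat.zero_le _)]
    obtain ⟨p1, p2, -⟩ := central D a a'
    obtain ⟨q1, q2, -⟩ := central D' b b'
    exact nil_core Y N hHC hILV hs hc (xx_ne D (Nat.zero_le _)) (xx_ne D (Nat.zero_le _))
      (xx_ne D' (Nat.zero_le _)) (xx_ne D' (Nat.zero_le _)) p1 p2 q1 q2

end Pool.Agent.H7.BPQ
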