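import Pool.Agent.H7.BPQ.SYS

/-! Row ORD of the board `bpq_modules` (problem MP_bacf0e_co): the order conditions. -/

set_option autoImplicit false

namespace Pool.Agent.H7.BPQ

open Finset Pool.Agent.H55.BP Pool.Agent.H55.BQ

/-- the real point between two points on different sides is on the segment -/
theorem xr_seg {z w : ℂ} (h : sg z ≠ sg w) : ‖((xr z w : ℝ) : ℂ) - z‖ ≤ ‖w - z‖ := by
  have hne : z.im - w.im ≠ 0 := by
    intro h0
    apply h
    unfold sg
    rw [show z.im = w.im by linarith]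
  obtain ⟨t, ht⟩ : ∃ t, t = z.im / (z.im - w.im) := ⟨_, rfl⟩
  have ht' : t * (z.im - w.im) = z.im := by rw [ht]; field_simp
  have h01 : 0 ≤ t ∧ t ≤ 1 := by
    unfold sg at h
    by_cases h1 : 0 ≤ z.im
    · have h2 : w.im < 0 := by
        by_contra h3
        push Not at h3
        exact h (by simp [h1, h3])
      constructor
      · rw [ht]
        exact div_nonneg h1 (by linarith)
      · rw [ht, div_le_one (by linarith)]
        linarith
    · push Not at h1
      have h2 : 0 ≤ w.im := by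
        by_contra h3
        push Not at h3
        exact h (by simp [not_le.2 h1, not_le.2 h3])
      constructor
      · rw [ht]
        exact div_nonneg_of_nonpos h1.le (by linarith)
      · by_contra h3
        push Not at h3
        nlinarith
  have he : ((xr z w : ℝ) : ℂ) - z = (t : ℂ) * (w - z) := by
    unfold xr
    rw [← ht]
    apply Complex.ext
    · simp [Complex.mul_re]
    · simp [Complex.mul_im]
      linarith
  rw [he, norm_mul, Complex.norm_real, Real.norm_eq_abs, abs_of_nonneg h01.1]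
  exact mul_le_of_le_one_left (norm_nonneg _) h01.2

section

variable {n : ℕ} [NeZero n] {ι : Type} (Y : Sys n ι) {N : ℕ}

theorem xr_ne (hF : Y.Fine N) (e : ι) (k : ℕ) (h : sg (Y.z N e k) ≠ sg (Y.z N e (k + 1)))
    (j : Fin n) : xr (Y.z N e k) (Y.z N e (k + 1)) ≠ (j.val : ℝ) := by
  intro h0
  have h1 := xr_seg h
  have h2 := hF.small e k j
  rw [h0] at h1
  rw [norm_sub_rev] at h2
  push_cast at h1
  have h5 : ‖Y.z N e k - (j.val : ℂ)‖ = ‖(j.val : ℂ) - Y.z N e k‖ := norm_sub_rev _ _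
  have h6 : ‖Y.z N e k - Y.z N e (k + 1)‖ = ‖Y.z N e (k + 1) - Y.z N e k‖ := norm_sub_rev _ _
  have h3 : ‖Y.z N e (k + 1) - Y.z N e k‖ ≤ 0 := by
    have := norm_nonneg ((j.val : ℂ) - Y.z N e k)
    rw [h5, h6] at h2
    linarith
  have h4 : Y.z N e (k + 1) = Y.z N e k := by
    rw [← sub_eq_zero, ← norm_le_zero_iff]
    exact h3
  rw [h4] at h
  exact h rfl

theorem spi_le (e : ι) (t : ℝ) (ht : 1 ≤ t) : ‖Y.γ e t - ((Y.wt e).val : ℂ)‖ ≤ Y.rad := by
  have h1 : Y.γ e t = sp ((Y.wt e).val : ℂ) (Y.γ e 1) t := by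
    rw [Y.spi e t ht]
    rfl
  rw [h1, sp_norm, Y.hit]
  exact mul_le_of_le_one_right Y.rad_pos.le (exp_le_one' ht)

theorem lf_ne (hn : 2 ≤ n) (i : Fin n) : lf n i ≠ i := by
  intro h
  unfold lf at h
  have h1 : (1 : Fin n) = 0 := by
    have : i - 1 = i - 0 := by rw [h, sub_zero]
    exact sub_right_injective this
  have h2 := congrArg Fin.val h1
  rw [Fin.val_one', Fin.val_zero, Nat.mod_eq_of_lt (by omega)] at h2
  omega

theorem core (hLNF : T_LNF) (hBT : T_BT) (T : LT n) (hn : 3 ≤ n) (hF : Y.Fine N) (e f : ι)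
    (κ κ' M : ℕ) (hM : 1 ≤ M) (hs : Y.Spiral T N e κ) (hs' : Y.Spiral T N f κ')
    (A B : ℕ → T.V)
    (hB : ∀ m, B (κ' + m * N) = (fun c => T.r (Y.wt f) (T.r (lf n (Y.wt f)) c))^[m] (B κ'))
    (pA : ∀ k, T.par (A k) = sg (Y.z N e k)) (pB : ∀ k, T.par (B k) = sg (Y.z N f k))
    (k' : ℕ) (hk' : k' < κ' + M * N) (hfl : sg (Y.z N f k') ≠ sg (Y.z N f (k' + 1)))
    (hc : B k' = A (κ + M * N) ∨ B (k' + 1) = A (κ + M * N)) (g : T.V)
    (hgE : T.dir (A (κ + M * N)) g = some (Y.wt e))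
    (hgF : T.dir g (B (κ' + M * N)) ≠ T.dir g (A (κ + M * N))) :
    ((Y.wt e).val : ℝ) - 1 / 4 < xr (Y.z N e (κ + M * N)) (Y.z N e (κ + M * N + 1)) ∧
    xr (Y.z N e (κ + M * N)) (Y.z N e (κ + M * N + 1)) < (Y.wt e).val ∧
    ¬ (xr (Y.z N e (κ + M * N)) (Y.z N e (κ + M * N + 1)) ≤
        xr (Y.z N f k') (Y.z N f (k' + 1)) ∧
      xr (Y.z N f k') (Y.z N f (k' + 1)) < (Y.wt e).val) := by
  have hN : 0 < N := lt_of_lt_of_le (by norm_num) hF.big
  have hNR : (0 : ℝ) < N := by exact_mod_cast hN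
  obtain ⟨hl1, hl2⟩ := (hs.left (κ + M * N) (by have := hs.lo; omega)).2 ⟨M, rfl⟩
  obtain ⟨hl3, hl4⟩ := (hs.left κ hs.lo).2 ⟨0, by simp⟩
  obtain ⟨hx1, hx2⟩ := hs.posL (κ + M * N) (by have := hs.lo; omega) hl1 hl2
  obtain ⟨hx3, hx4⟩ := hs.posL κ hs.lo hl3 hl4
  have hsc := hs.scal M
  have hrad := Y.rad_pos
  have hrad2 := Y.rad_lt
  refine ⟨by linarith, hx1, ?_⟩
  rintro ⟨h1, h2⟩
  obtain ⟨x, hx⟩ : ∃ x, x = xr (Y.z N e (κ + M * N)) (Y.z N e (κ + M * N + 1)) := ⟨_, rfl⟩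
  obtain ⟨y, hy⟩ : ∃ y, y = xr (Y.z N f k') (Y.z N f (k' + 1)) := ⟨_, rfl⟩
  rw [← hx] at hx1 hx2 hsc h1
  rw [← hy] at h1 h2
  have hx5 : ((Y.wt e).val : ℝ) - Y.rad / 2 ≤ x := by
    have h3 : (2 : ℝ) ≤ 2 ^ M := by
      calc (2 : ℝ) = 2 ^ 1 := by norm_num
        _ ≤ 2 ^ M := pow_le_pow_right₀ (by norm_num) hM
    have h4 : -(Y.rad / 2) ≤
        (xr (Y.z N e κ) (Y.z N e (κ + 1)) - ((Y.wt e).val : ℝ)) / 2 ^ M := by
      rw [le_div_iff₀ (by positivity)]
      nlinarith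
    linarith
  have hyi : ‖(y : ℂ) - ((Y.wt e).val : ℂ)‖ ≤ Y.rad / 2 := by
    rw [show (y : ℂ) - ((Y.wt e).val : ℂ) = ((y - ((Y.wt e).val : ℝ) : ℝ) : ℂ) by push_cast; ring,
      Complex.norm_real, Real.norm_eq_abs, abs_le]
    constructor <;> linarith
  have hseg := xr_seg hfl
  rw [← hy] at hseg
  have hz : ‖Y.z N f k' - ((Y.wt e).val : ℂ)‖ < Y.rad := by
    have h3 := hF.small f k' (Y.wt e)
    have h4 : ‖Y.z N f k' - ((Y.wt e).val : ℂ)‖ ≤
        ‖(y : ℂ) - Y.z N f k'‖ + ‖(y : ℂ) - ((Y.wt e).val : ℂ)‖ := by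
      have : Y.z N f k' - ((Y.wt e).val : ℂ) =
        ((y : ℂ) - ((Y.wt e).val : ℂ)) - ((y : ℂ) - Y.z N f k') := by ring
      rw [this]
      have := norm_sub_le ((y : ℂ) - ((Y.wt e).val : ℂ)) ((y : ℂ) - Y.z N f k')
      linarith
    linarith
  have hk'N : N ≤ k' := by
    by_contra h3
    push Not at h3
    have h4 := Y.far f ((k' : ℝ) / N) (Y.wt e) (by positivity) (by
      rw [div_le_one hNR]
      exact_mod_cast h3.le)
    exact absurd hz (not_lt.2 h4)
  have hwt : Y.wt e = Y.wt f := by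
    have h3 := spi_le Y f ((k' : ℝ) / N) (by
      rw [le_div_iff₀ hNR, one_mul]
      exact_mod_cast hk'N)
    have h4 : ‖((Y.wt e).val : ℂ) - ((Y.wt f).val : ℂ)‖ < 1 := by
      have : ((Y.wt e).val : ℂ) - ((Y.wt f).val : ℂ) =
        (Y.z N f k' - ((Y.wt f).val : ℂ)) - (Y.z N f k' - ((Y.wt e).val : ℂ)) := by ring
      rw [this]
      have h5 := norm_sub_le (Y.z N f k' - ((Y.wt f).val : ℂ)) (Y.z N f k' - ((Y.wt e).val : ℂ))
      have h6 : ‖Y.z N f k' - ((Y.wt f).val : ℂ)‖ ≤ Y.rad := h3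
      linarith
    rw [show ((Y.wt e).val : ℂ) - ((Y.wt f).val : ℂ) =
      (((((Y.wt e).val : ℤ) - ((Y.wt f).val : ℤ) : ℤ) : ℝ) : ℂ) by push_cast; ring,
      Complex.norm_real, Real.norm_eq_abs] at h4
    have h7 : |((Y.wt e).val : ℤ) - ((Y.wt f).val : ℤ)| < 1 := by exact_mod_cast h4
    rw [Int.abs_lt_one_iff] at h7
    exact Fin.ext (by omega)
  have hleft : sg (Y.z N f k') = true ∧ sg (Y.z N f (k' + 1)) = false := by
    cases h3 : sg (Y.z N f k') with
    | true =>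
      refine ⟨rfl, ?_⟩
      cases h4 : sg (Y.z N f (k' + 1)) with
      | true => exact absurd (h3.trans h4.symm) hfl
      | false => rfl
    | false =>
      cases h4 : sg (Y.z N f (k' + 1)) with
      | false => exact absurd (h3.trans h4.symm) hfl
      | true =>
        have h5 := (hs'.posR k' hk'N h3 h4).1
        rw [← hy, ← hwt] at h5
        exact absurd h5 (not_lt.2 h2.le)
  obtain ⟨m, hm⟩ := (hs'.left k' hk'N).1 hleft
  have hmM : m < M := by
    by_contra h3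
    push Not at h3
    have := Nat.mul_le_mul_right N h3
    omega
  have hE : B k' = A (κ + M * N) := by
    rcases hc with h3 | h3
    · exact h3
    · have h4 := congrArg T.par h3
      rw [pA, pB, hleft.2, hl1] at h4
      exact absurd h4 (by simp)
  have hFE : B (κ' + M * N) =
      (fun c => T.r (Y.wt e) (T.r (lf n (Y.wt e)) c))^[M - m] (A (κ + M * N)) := by
    rw [← hE, hm, hB, hB, hwt, ← Function.iterate_add_apply, Nat.sub_add_cancel hmM.le]
  have hdir : T.dir (A (κ + M * N)) (B (κ' + M * N)) = some (lf n (Y.wt e)) := by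
    rw [hFE]
    exact hLNF T (Y.wt e) (lf n (Y.wt e)) (lf_ne (by omega) _) _ _ (by omega)
  have hne1 : A (κ + M * N) ≠ g := by
    intro h3
    rw [(T.dir_none _ _).2 h3] at hgE
    exact absurd hgE (by simp)
  have hne2 : A (κ + M * N) ≠ B (κ' + M * N) := by
    intro h3
    rw [(T.dir_none _ _).2 h3] at hdir
    exact absurd hdir (by simp)
  have h3 := hBT T (A (κ + M * N)) g (B (κ' + M * N)) hne1 hne2 (by
    rw [hgE, hdir]
    intro h4
    exact lf_ne (by omega) (Y.wt e) (Option.some_injective _ h4).symm)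
  exact hgF h3

end

theorem ext_lt {n : ℕ} [NeZero n] {T : LT n} {c₀ : T.V} {z : ℕ → ℂ} {κ : ℕ} {L : Walk T}
    {ι : ℕ → ℕ} (h : Ext c₀ z κ L ι) {l : ℕ} (hl : l < L.K) : ι l < κ := by
  have h1 : ∀ d, l + 1 + d ≤ L.K → ι l < ι (l + 1 + d) := by
    intro d
    induction d with
    | zero => intro _; exact h.mono l hl
    | succ d ih =>
      intro hd
      exact lt_trans (ih (by omega)) (h.mono (l + 1 + d) (by omega))
  have h2 := h1 (L.K - (l + 1)) (by omega)
  rw [show l + 1 + (L.K - (l + 1)) = L.K by omega, h.last] at h2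
  exact h2

theorem dd {n : ℕ} {d d' : Fin 3 → Fin n} (hd : StrictMono d) (hd' : StrictMono d')
    (h1 : d 1 = d' 1) {a b : Fin 3} (hab : a ≠ b) : d a ≠ d' b := by
  have h01 : d 0 < d 1 := hd (by decide)
  have h12 : d 1 < d 2 := hd (by decide)
  have h01' : d' 0 < d' 1 := hd' (by decide)
  have h12' : d' 1 < d' 2 := hd' (by decide)
  rw [Fin.lt_def] at h01 h12 h01' h12'
  have h1' := congrArg Fin.val h1
  intro h
  have h' := congrArg Fin.val h
  fin_cases a <;> fin_cases b <;> simp at hab h' <;> omega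

theorem pf_ORD (hSID : T_SID) (hEND : T_END) (hBT : T_BT) (hLNF : T_LNF) (hDKD : T_DKD)
    (hPRC : T_PRC) : T_ORD := by
  intro n _ T ι Y N hn hF e f h κ κ' M hM hsp hsp' hlf hlf' L L' j j' hL hL' g d d' hd hd' h1 hgE
    hgF
  have pc : ∀ e' k, T.par (Y.c T N e' k) = sg (Y.z N e' k) := by
    intro e' k
    refine hPRC T _ _ ?_ k
    have h0 : Y.z N e' 0 = Y.γ e' 0 := by unfold Sys.z; simp
    rw [h0]
    unfold cell0
    cases h2 : sg (Y.γ e' 0) with
    | true => simp [T.par_o]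
    | false => simp [T.par_r, T.par_o]
  have ph : ∀ e' k, T.par (h.h (Y.c T N e' k)) = sg (Y.z N e' k) := by
    intro e' k
    rw [h.hp, pc]
  have hit : ∀ (i l : Fin n) (m : ℕ) (c : T.V), h.h ((fun c => T.r i (T.r l c))^[m] c) =
      (fun c => T.r i (T.r l c))^[m] (h.h c) := by
    intro i l m
    induction m with
    | zero => intro c; rfl
    | succ m ih =>
      intro c
      rw [Function.iterate_succ_apply, Function.iterate_succ_apply, ih, h.hr, h.hr]
  have cB : ∀ b m, h.h (Y.c T N (f b) (κ' b + m * N)) =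
      (fun c => T.r (Y.wt (f b)) (T.r (lf n (Y.wt (f b))) c))^[m]
        (h.h (Y.c T N (f b) (κ' b))) := by
    intro b m
    rw [(hsp' b).cells m, hit]
  have LE : ∀ a, (L a).C (L a).K = Y.c T N (e a) (κ a + M * N) := by
    intro a
    rw [(hL a).hC _ le_rfl, (hL a).last]
    rfl
  have LF : ∀ b, (L' b).C (L' b).K = Y.c T N (f b) (κ' b + M * N) := by
    intro b
    rw [(hL' b).hC _ le_rfl, (hL' b).last]
    rfl
  have oth : ∀ a : Fin 3, ∃ a', a ≠ a' := by
    intro a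
    fin_cases a
    · exact ⟨1, by decide⟩
    · exact ⟨0, by decide⟩
    · exact ⟨0, by decide⟩
  have hgE' : ∀ a, T.dir (Y.c T N (e a) (κ a + M * N)) g = some (Y.wt (e a)) := by
    intro a
    obtain ⟨a', ha'⟩ := oth a
    rw [← hlf a a' ha']
    have hn1 : ∀ a, g ≠ Y.c T N (e a) (κ a + M * N) := by
      intro a h2
      have h3 := hgE a
      rw [(T.dir_none _ _).2 h2] at h3
      exact absurd h3 (by simp)
    refine (hBT T g _ _ (hn1 a) (hn1 a') ?_).symm
    rw [hgE, hgE]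
    intro h2
    exact ha' (hd.injective (Option.some_injective _ h2))
  have hgF' : ∀ b, T.dir (h.h (Y.c T N (f b) (κ' b + M * N))) g = some (Y.wt (f b)) := by
    intro b
    obtain ⟨b', hb'⟩ := oth b
    rw [← hlf' b b' hb', ← (hDKD T h).2 (Y.c T N (f b) (κ' b + M * N)) (Y.c T N (f b') (κ' b' + M * N))]
    have hn1 : ∀ b, g ≠ h.h (Y.c T N (f b) (κ' b + M * N)) := by
      intro b h2
      have h3 := hgF b
      rw [(T.dir_none _ _).2 h2] at h3
      exact absurd h3 (by simp)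
    refine (hBT T g _ _ (hn1 b) (hn1 b') ?_).symm
    rw [hgF, hgF]
    intro h2
    exact hb' (hd'.injective (Option.some_injective _ h2))
  constructor
  · intro a b k l hk hl
    have hl' : l < (L' b).K := hl
    change ((L a).s k < (L' b).s l → (L a).x k < (L' b).x l) ∧
      ((L' b).s l < (L a).s k → (L' b).x l < (L a).x k)
    rw [(hL a).hs k hk, (hL a).hx k hk.le, (hL' b).hs l hl', (hL' b).hx l hl'.le]
    have n1 := xr_ne Y hF (e a) _ ((hL a).flip k hk.le)
    have n2 := xr_ne Y hF (f b) _ ((hL' b).flip l hl'.le)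
    exact ⟨fun h2 => hSID n _ _ n1 n2 h2, fun h2 => hSID n _ _ n2 n1 h2⟩
  · intro a b l hab hl hc
    have hl' : l < (L' b).K := hl
    change ((L' b).s l ≤ lf n (Y.wt (e a)) → (L' b).x l < (L a).x (L a).K) ∧
      (lf n (Y.wt (e a)) < (L' b).s l → (L a).x (L a).K < (L' b).x l)
    have hc' : h.h ((L' b).C l) = (L a).C (L a).K ∨ h.h ((L' b).C (l + 1)) = (L a).C (L a).K := hc
    have c1 : (L' b).C l = Y.c T N (f b) (j' b l) := (hL' b).hC l hl'.le
    have c2 : (L' b).C (l + 1) = Y.c T N (f b) (j' b l + 1) := by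
      rw [(hL' b).hC (l + 1) hl']
      exact ((hL' b).run l hl' (j' b l + 1) (Nat.lt_succ_self _) ((hL' b).mono l hl')).1.symm
    rw [c1, c2, LE] at hc'
    have n2 := xr_ne Y hF (f b) _ ((hL' b).flip l hl'.le)
    obtain ⟨r1, r2, r3⟩ := core Y hLNF hBT T hn hF (e a) (f b) (κ a) (κ' b) M hM (hsp a) (hsp' b)
      (Y.c T N (e a)) (fun k => h.h (Y.c T N (f b) k)) (cB b) (pc _) (ph _) (j' b l)
      (ext_lt (hL' b) hl') ((hL' b).flip l hl'.le) hc' g (hgE' a) (by
        rw [hgE a, hgF b]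
        intro h2
        exact dd hd hd' h1 hab (Option.some_injective _ h2).symm)
    rw [(hL' b).hs l hl', (hL' b).hx l hl'.le, (hL a).hx _ le_rfl, (hL a).last]
    exact hEND n (Y.wt (e a)) _ _ (by omega) r1 r2 n2 r3
  · intro a b k hab hk hc
    change ((L a).s k ≤ lf n (Y.wt (f b)) → (L a).x k < (L' b).x (L' b).K) ∧
      (lf n (Y.wt (f b)) < (L a).s k → (L' b).x (L' b).K < (L a).x k)
    have hc' : (L a).C k = h.h ((L' b).C (L' b).K) ∨ (L a).C (k + 1) = h.h ((L' b).C (L' b).K) :=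
      hc
    have c1 : (L a).C k = Y.c T N (e a) (j a k) := (hL a).hC k hk.le
    have c2 : (L a).C (k + 1) = Y.c T N (e a) (j a k + 1) := by
      rw [(hL a).hC (k + 1) hk]
      exact ((hL a).run k hk (j a k + 1) (Nat.lt_succ_self _) ((hL a).mono k hk)).1.symm
    rw [c1, c2, LF] at hc'
    have n2 := xr_ne Y hF (e a) _ ((hL a).flip k hk.le)
    obtain ⟨r1, r2, r3⟩ := core Y hLNF hBT T hn hF (f b) (e a) (κ' b) (κ a) M hM (hsp' b) (hsp a)
      (fun k => h.h (Y.c T N (f b) k)) (Y.c T N (e a)) ((hsp a).cells) (ph _) (pc _) (j a k)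
      (ext_lt (hL a) hk) ((hL a).flip k hk.le) hc' g (hgF' b) (by
        rw [hgE a, hgF b]
        intro h2
        exact dd hd hd' h1 hab (Option.some_injective _ h2))
    rw [(hL a).hs k hk, (hL a).hx k hk.le, (hL' b).hx _ le_rfl, (hL' b).last]
    exact hEND n (Y.wt (f b)) _ _ (by omega) r1 r2 n2 r3
  · intro a b hab
    change (L a).C (L a).K ≠ h.h ((L' b).C (L' b).K)
    rw [LE, LF]
    intro h2
    have h3 := hgE a
    rw [h2, hgF b] at h3
    exact dd hd hd' h1 hab (Option.some_injective _ h3).symm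

end Pool.Agent.H7.BPQ
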