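import Pool.Agent.H55.BQ.Targets

/-! Row SYS of the board `bpq_modules` (problem MP_bacf0e_co): the system of legs of a drawing. -/

set_option autoImplicit false

namespace Pool.Agent.H7.BPQ

open Finset Pool.Agent.H55.BP Pool.Agent.H55.BQ

/-- the index type of the legs -/
abbrev Ix {n m : ℕ} (G : SimpleGraph (Fin n ⊕ Fin m)) : Type :=
  {e : Fin m × Fin n // G.Adj (Sum.inr e.1) (Sum.inl e.2)}

/-- the edge of a leg -/
def ed {n m : ℕ} {G : SimpleGraph (Fin n ⊕ Fin m)} (e : Ix G) : Sym2 (Fin n ⊕ Fin m) :=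
  s(Sum.inr e.val.1, Sum.inl e.val.2)

theorem ed_inj {n m : ℕ} {G : SimpleGraph (Fin n ⊕ Fin m)} {e f : Ix G} (h : ed e = ed f) :
    e = f := by
  unfold ed at h
  rw [Sym2.eq_iff] at h
  rcases h with ⟨h1, h2⟩ | ⟨h1, -⟩
  · exact Subtype.ext (Prod.ext (Sum.inr_injective h1) (Sum.inl_injective h2))
  · exact absurd h1 (by simp)

/-- the spiral -/
noncomputable def sp (p q : ℂ) (t : ℝ) : ℂ :=
  p + (q - p) * Complex.exp (((t - 1 : ℝ) : ℂ) * (2 * Real.pi * Complex.I - Real.log 2))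

theorem sp_one (p q : ℂ) : sp p q 1 = q := by
  unfold sp
  simp

theorem sp_norm (p q : ℂ) (t : ℝ) :
    ‖sp p q t - p‖ = ‖q - p‖ * Real.exp (-((t - 1) * Real.log 2)) := by
  unfold sp
  rw [add_sub_cancel_left, norm_mul, Complex.norm_exp]
  congr 2
  have : (((t - 1 : ℝ) : ℂ) * (2 * Real.pi * Complex.I - Real.log 2)).re =
      -((t - 1) * Real.log 2) := by
    rw [Complex.re_ofReal_mul]
    have h2 : (2 * Real.pi * Complex.I - ((Real.log 2 : ℝ) : ℂ)).re = - Real.log 2 := by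
      simp only [Complex.sub_re, Complex.mul_re, Complex.mul_im, Complex.I_re, Complex.I_im,
        Complex.ofReal_re, Complex.ofReal_im, Complex.re_ofNat, Complex.im_ofNat]
      ring
    rw [h2]
    ring
  exact this

theorem sp_cont (p q : ℂ) : Continuous (sp p q) := by
  unfold sp
  fun_prop

theorem exp_le_one' {t : ℝ} (h : 1 ≤ t) : Real.exp (-((t - 1) * Real.log 2)) ≤ 1 := by
  rw [Real.exp_le_one_iff]
  have := Real.log_pos (show (1:ℝ) < 2 by norm_num)
  nlinarith

theorem exp_lt_one' {t : ℝ} (h : 1 < t) : Real.exp (-((t - 1) * Real.log 2)) < 1 := by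
  rw [Real.exp_lt_one_iff]
  have := Real.log_pos (show (1:ℝ) < 2 by norm_num)
  nlinarith

theorem exp_inj' {s t : ℝ}
    (h : Real.exp (-((s - 1) * Real.log 2)) = Real.exp (-((t - 1) * Real.log 2))) : s = t := by
  have h1 := Real.exp_injective h
  have h2 := Real.log_pos (show (1:ℝ) < 2 by norm_num)
  have h3 : (s - t) * Real.log 2 = 0 := by linarith
  rcases mul_eq_zero.1 h3 with h4 | h4 <;> linarith

theorem pf_SYS (hRAD : T_RAD) (hHIT : T_HIT) : T_SYS := by
  classical
  intro n m G D hG hpt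
  obtain ⟨ρ, hρ0, hρ4, hR1, hR2, hR3⟩ := hRAD n m G D hG hpt
  have hh : ∀ e : Ix G, ∃ τ : ℝ, 0 < τ ∧ τ < 1 ∧
      ‖D.arc (Sum.inr e.val.1) (Sum.inl e.val.2) τ - (e.val.2.val : ℂ)‖ = ρ ∧
      ∀ t, 0 ≤ t → t < τ →
        ρ < ‖D.arc (Sum.inr e.val.1) (Sum.inl e.val.2) t - (e.val.2.val : ℂ)‖ := by
    intro e
    refine hHIT _ _ ρ (D.cont _ _ e.2) hρ0 ?_ ?_
    · rw [D.zero _ _ e.2]
      exact hR1 e.val.2 e.val.1
    · rw [D.one _ _ e.2, hpt]
  choose τ hτ0 hτ1 hτρ hτlt using hh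
  let F : Ix G → ℝ → ℂ := fun e => D.arc (Sum.inr e.val.1) (Sum.inl e.val.2)
  let γ : Ix G → ℝ → ℂ := fun e t => if t ≤ 1 then F e (t * τ e)
    else sp (e.val.2.val : ℂ) (F e (τ e)) t
  have hγle : ∀ e t, t ≤ 1 → γ e t = F e (t * τ e) := fun e t ht => if_pos ht
  have hγge : ∀ e t, 1 ≤ t → γ e t = sp (e.val.2.val : ℂ) (F e (τ e)) t := by
    intro e t ht
    rcases eq_or_lt_of_le ht with h | h
    · rw [← h, hγle e 1 le_rfl, one_mul, sp_one]
    · exact if_neg (not_le.2 h)
  have hγ1 : ∀ e, γ e 1 = F e (τ e) := by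
    intro e
    rw [hγle e 1 le_rfl, one_mul]
  have hγ0 : ∀ e, γ e 0 = D.pt (Sum.inr e.val.1) := by
    intro e
    rw [hγle e 0 zero_le_one, zero_mul]
    exact D.zero _ _ e.2
  have hmem : ∀ e t, 0 ≤ t → t ≤ 1 → t * τ e ∈ Set.Icc (0 : ℝ) 1 := by
    intro e t h0 h1
    have := hτ0 e
    have := hτ1 e
    exact ⟨by positivity, by nlinarith⟩
  have hmem' : ∀ e t, 0 < t → t ≤ 1 → t * τ e ∈ Set.Ioo (0 : ℝ) 1 := by
    intro e t h0 h1
    have := hτ0 e
    have := hτ1 e
    exact ⟨by positivity, by nlinarith⟩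
  have hN1 : ∀ e t, 0 ≤ t → t < 1 → ρ < ‖γ e t - (e.val.2.val : ℂ)‖ := by
    intro e t h0 h1
    rw [hγle e t h1.le]
    have := hτ0 e
    exact hτlt e _ (by positivity) (by nlinarith)
  have hN2 : ∀ e t, 1 ≤ t → ‖γ e t - (e.val.2.val : ℂ)‖ =
      ρ * Real.exp (-((t - 1) * Real.log 2)) := by
    intro e t h1
    rw [hγge e t h1, sp_norm]
    congr 1
    exact hτρ e
  have hN2' : ∀ e t, 1 ≤ t → ‖γ e t - (e.val.2.val : ℂ)‖ ≤ ρ := by
    intro e t h1
    rw [hN2 e t h1]
    have := exp_le_one' h1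
    nlinarith
  have hN3 : ∀ e, ‖γ e 1 - (e.val.2.val : ℂ)‖ = ρ := by
    intro e
    rw [hγ1]
    exact hτρ e
  have hN4 : ∀ e t (i' : Fin n), e.val.2 ≠ i' → 0 ≤ t → t ≤ 1 →
      ρ < ‖γ e t - (i'.val : ℂ)‖ := by
    intro e t i' hi h0 h1
    rw [hγle e t h1]
    exact hR2 _ _ _ e.2 hi _ (hmem e t h0 h1)
  have hinj : ∀ e s t, 0 ≤ s → 0 ≤ t → γ e s = γ e t → s = t := by
    have haux : ∀ e s t, 0 ≤ s → s ≤ 1 → 1 < t → γ e s = γ e t → False := by
      intro e s t hs0 hs1 ht1 h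
      have h1 : ρ ≤ ‖γ e s - (e.val.2.val : ℂ)‖ := by
        rcases eq_or_lt_of_le hs1 with h2 | h2
        · rw [h2, hN3]
        · exact (hN1 e s hs0 h2).le
      rw [h, hN2 e t ht1.le] at h1
      have := exp_lt_one' ht1
      nlinarith
    intro e s t hs0 ht0 h
    rcases le_or_gt s 1 with hs | hs
    · rcases le_or_gt t 1 with ht | ht
      · rw [hγle e s hs, hγle e t ht] at h
        have := D.inj _ _ e.2 (hmem e s hs0 hs) (hmem e t ht0 ht) h
        exact mul_right_cancel₀ (hτ0 e).ne' this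
      · exact (haux e s t hs0 hs ht h).elim
    · rcases le_or_gt t 1 with ht | ht
      · exact (haux e t s ht0 ht hs h.symm).elim
      · have h1 := congrArg (fun z => ‖z - (e.val.2.val : ℂ)‖) h
        simp only [hN2 e s hs.le, hN2 e t ht.le] at h1
        exact exp_inj' (mul_left_cancel₀ hρ0.ne' h1)
  -- crossings of different legs
  have hcs : ∀ e f : Ix G, e ≠ f → ∀ s t, 0 < s → s ≤ 1 → 0 < t → t ≤ 1 → γ e s = γ f t →
      (s(ed e, ed f), γ e s) ∈ crossSet G D.arc := by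
    intro e f hef s t hs0 hs1 ht0 ht1 h
    refine ⟨Sum.inr e.val.1, Sum.inl e.val.2, Sum.inr f.val.1, Sum.inl f.val.2, e.2, f.2,
      fun h1 => hef (ed_inj h1), rfl, ?_, ?_⟩
    · exact ⟨s * τ e, hmem' e s hs0 hs1, (hγle e s hs1).symm⟩
    · refine ⟨t * τ f, hmem' f t ht0 ht1, ?_⟩
      change F f (t * τ f) = γ e s
      rw [h, hγle f t ht1]
  have hdist : ∀ i i' : Fin n, i ≠ i' → (1 : ℝ) ≤ ‖((i.val : ℂ)) - (i'.val : ℂ)‖ := by
    intro i i' hi
    have h1 : ((i.val : ℂ)) - (i'.val : ℂ) = (((i.val : ℤ) - (i'.val : ℤ) : ℤ) : ℂ) := by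
      push_cast
      rfl
    rw [h1, Complex.norm_intCast]
    have h2 : ((i.val : ℤ) - (i'.val : ℤ)) ≠ 0 := by
      intro h3
      apply hi
      ext
      omega
    exact_mod_cast Int.one_le_abs h2
  have hlt : ∀ e f : Ix G, e ≠ f → ∀ s t, 0 ≤ s → 0 ≤ t → γ e s = γ f t → s < 1 := by
    intro e f hef s t hs0 ht0 h
    by_contra hs
    rw [not_lt] at hs
    have h1 := hN2' e s hs
    by_cases hi : f.val.2 = e.val.2
    · rcases lt_or_ge t 1 with ht | ht
      · have h2 := hN1 f t ht0 ht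
        rw [← h, hi] at h2
        linarith
      · have h2 := hN2 f t ht
        rw [← h, hi, hN2 e s hs] at h2
        have hst := exp_inj' (mul_left_cancel₀ hρ0.ne' h2)
        rw [← hst] at h
        rw [hγge e s hs, hγge f s hs] at h
        unfold sp at h
        rw [hi] at h
        have h3 := mul_right_cancel₀ (Complex.exp_ne_zero _) (add_left_cancel h)
        have h4 : F e (τ e) = F f (τ f) := by
          have := congrArg (fun z => z + (e.val.2.val : ℂ)) h3
          simpa using this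
        have h5 : γ e 1 = γ f 1 := by rw [hγ1, hγ1, h4]
        have h6 := hR3 _ (hcs e f hef 1 1 one_pos le_rfl one_pos le_rfl h5) e.val.2
        change ρ < ‖γ e 1 - (e.val.2.val : ℂ)‖ at h6
        rw [hN3] at h6
        exact lt_irrefl _ h6
    · rcases le_or_gt t 1 with ht | ht
      · have h2 := hN4 f t e.val.2 hi ht0 ht
        rw [← h] at h2
        linarith
      · have h2 := hN2' f t ht.le
        have h3 := hdist f.val.2 e.val.2 hi
        have h4 : ‖((f.val.2.val : ℂ)) - (e.val.2.val : ℂ)‖ ≤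
            ‖γ e s - (e.val.2.val : ℂ)‖ + ‖γ f t - (f.val.2.val : ℂ)‖ := by
          have h5 : ((f.val.2.val : ℂ)) - (e.val.2.val : ℂ) =
              (γ e s - (e.val.2.val : ℂ)) - (γ f t - (f.val.2.val : ℂ)) := by
            rw [h]
            ring
          rw [h5]
          exact norm_sub_le _ _
        linarith
  have hcrs : ∀ e f : Ix G, ∀ s t, e ≠ f → 0 ≤ s → 0 ≤ t → γ e s = γ f t →
      (0 < s ∧ s < 1 ∧ 0 < t ∧ t < 1) ∨ (e.val.1.val = f.val.1.val ∧ s = 0 ∧ t = 0) := by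
    intro e f s t hef hs0 ht0 h
    have hs1 := hlt e f hef s t hs0 ht0 h
    have ht1 := hlt f e (Ne.symm hef) t s ht0 hs0 h.symm
    rcases eq_or_lt_of_le hs0 with hs | hs
    · rcases eq_or_lt_of_le ht0 with ht | ht
      · right
        rw [← hs, ← ht, hγ0, hγ0] at h
        have := Sum.inr_injective (D.pt_inj h)
        exact ⟨by rw [this], hs.symm, ht.symm⟩
      · exfalso
        rw [← hs, hγ0, hγle f t ht1.le] at h
        exact D.avoid _ _ f.2 _ (hmem' f t ht ht1.le) _ h.symm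
    · rcases eq_or_lt_of_le ht0 with ht | ht
      · exfalso
        rw [← ht, hγ0, hγle e s hs1.le] at h
        exact D.avoid _ _ e.2 _ (hmem' e s hs hs1.le) _ h
      · exact Or.inl ⟨hs, hs1, ht, ht1⟩
  let Y : Sys n (Ix G) :=
    { b := fun e => e.val.1.val
      wt := fun e => e.val.2
      γ := γ
      rad := ρ
      rad_pos := hρ0
      rad_lt := hρ4
      cont := by
        intro e
        have h1 : ContinuousOn (γ e) (Set.Icc 0 1) := by
          have h2 : ContinuousOn (fun t => F e (t * τ e)) (Set.Icc 0 1) :=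
            (D.cont _ _ e.2).comp (by fun_prop) fun t ht => hmem e t ht.1 ht.2
          exact h2.congr fun t ht => hγle e t ht.2
        have h2 : ContinuousOn (γ e) (Set.Ici 1) :=
          (sp_cont _ _).continuousOn.congr fun t ht => hγge e t ht
        have h3 := h1.union_of_isClosed h2 isClosed_Icc isClosed_Ici
        refine h3.mono fun t ht => ?_
        rcases le_or_gt t 1 with h4 | h4
        · exact Or.inl ⟨ht, h4⟩
        · exact Or.inr h4.le
      star := by
        intro e f h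
        rw [hγ0, hγ0, Fin.ext h]
      far := by
        intro e t i h0 h1
        by_cases hi : e.val.2 = i
        · rw [← hi]
          rcases eq_or_lt_of_le h1 with h2 | h2
          · rw [h2, hN3]
          · exact (hN1 e t h0 h2).le
        · exact (hN4 e t i hi h0 h1).le
      hit := hN3
      spi := by
        intro e t ht
        rw [hγge e t ht, hγ1]
        rfl
      inj := hinj
      dist := by
        intro e f hef hb hw
        exact hef (Subtype.ext (Prod.ext (Fin.ext hb) hw))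
      crs := hcrs }
  let c : Ix G → ℕ := fun e => (Fintype.equivFin (Ix G) e).val
  have hc : ∀ e f, c e = c f → e = f := by
    intro e f h
    exact (Fintype.equivFin (Ix G)).injective (Fin.ext h)
  let Φ : (Ix G × Ix G) × (ℝ × ℝ) → (Sym2 (Sym2 (Fin n ⊕ Fin m)) × ℂ) × Bool :=
    fun p => ((s(ed p.1.1, ed p.1.2), γ p.1.1 p.2.1), decide (c p.1.1 < c p.1.2))
  have hmaps : Set.MapsTo Φ Y.recs (crossSet G D.arc ×ˢ (Set.univ : Set Bool)) := by
    rintro ⟨⟨e, f⟩, ⟨s, t⟩⟩ ⟨h1, h2, h3, h4, h5, h6⟩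
    exact ⟨hcs e f h1 s t h2 h3.le h4 h5.le h6, trivial⟩
  have hinjΦ : Set.InjOn Φ Y.recs := by
    rintro ⟨⟨e, f⟩, ⟨s, t⟩⟩ ⟨h1, h2, h3, h4, h5, h6⟩ ⟨⟨e', f'⟩, ⟨s', t'⟩⟩
      ⟨h1', h2', h3', h4', h5', h6'⟩ h
    change γ e s = γ f t at h6
    change γ e' s' = γ f' t' at h6'
    have g1 : s(ed e, ed f) = s(ed e', ed f') := congrArg (fun z => z.1.1) h
    have g2 : γ e s = γ e' s' := congrArg (fun z => z.1.2) h
    have g3 : decide (c e < c f) = decide (c e' < c f') := congrArg (fun z => z.2) h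
    rw [Sym2.eq_iff] at g1
    rcases g1 with ⟨g4, g5⟩ | ⟨g4, g5⟩
    · have e1 := ed_inj g4
      have e2 := ed_inj g5
      subst e1
      subst e2
      have e3 := hinj e s s' h2.le h2'.le g2
      have e4 : γ f t = γ f t' := by rw [← h6, ← h6', g2]
      have e5 := hinj f t t' h4.le h4'.le e4
      rw [e3, e5]
    · exfalso
      have e1 := ed_inj g4
      have e2 := ed_inj g5
      subst e1
      subst e2
      rw [decide_eq_decide] at g3
      rcases lt_trichotomy (c e) (c f) with h7 | h7 | h7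
      · have := g3.1 h7
        omega
      · exact h1 (hc _ _ h7)
      · have := g3.2 h7
        omega
  have hfin : (crossSet G D.arc ×ˢ (Set.univ : Set Bool)).Finite := D.fin.prod Set.finite_univ
  refine ⟨Y, fun e => ⟨rfl, rfl⟩, Set.Finite.of_injOn hmaps hinjΦ hfin, ?_⟩
  have h := Set.ncard_le_ncard_of_injOn Φ hmaps hinjΦ hfin
  rw [Set.ncard_prod, Set.ncard_univ, Nat.card_eq_fintype_card, Fintype.card_bool] at h
  unfold Drawing.crossings
  linarith

end Pool.Agent.H7.BPQ
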